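import Pool.Agent.Y262.EL.Stm
import Pool.Agent.Y708.QE.Gr

/-!
# Project EL: eigenfunctions are weak solutions in the covering
-/

set_option autoImplicit false
set_option linter.unusedSectionVars false

open Set Filter Topology MeasureTheory
open scoped ContDiff ComplexConjugate Real NNReal ENNReal

noncomputable section

namespace Pool.Agent.Y361.EL.Wk

open Pool.Agent.Y262.EG Pool.Agent.Y262.EX Pool.Agent.Y262.EL

/-! ### Integration by parts -/

theorem int_mul {O : Set ℂ} (hO : IsOpen O) {a w : ℂ → ℝ} (ha : ContinuousOn a O)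
    (hw : Continuous w) (hc : HasCompactSupport w) (hs : tsupport w ⊆ O) :
    Continuous (fun z => a z * w z) ∧ Integrable (fun z => a z * w z) := by
  have h1 : Continuous (fun z => a z * w z) := by
    rw [continuous_iff_continuousAt]
    intro z
    by_cases hz : z ∈ O
    · exact (ha.continuousAt (hO.mem_nhds hz)).mul hw.continuousAt
    · have h2 : z ∉ tsupport w := fun h => hz (hs h)
      rw [notMem_tsupport_iff_eventuallyEq] at h2
      have h3 : (fun z => a z * w z) =ᶠ[𝓝 z] fun _ => 0 := by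
        filter_upwards [h2] with y hy
        simp [hy]
      exact continuousAt_const.congr h3.symm
  exact ⟨h1, h1.integrable_of_hasCompactSupport hc.mul_left⟩

theorem ibp1 {O : Set ℂ} (hO : IsOpen O) {f v : ℂ → ℝ} (hf : ContDiffOn ℝ 1 f O)
    (hv : ContDiff ℝ ∞ v) (hc : HasCompactSupport v) (hs : tsupport v ⊆ O) (e : ℂ) :
    Integrable (fun z => fderiv ℝ f z e * fderiv ℝ v z e) ∧
    Integrable (fun z => f z * fderiv ℝ (fun z => fderiv ℝ v z e) z e) ∧
    ∫ z, f z * fderiv ℝ (fun z => fderiv ℝ v z e) z e =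
      -∫ z, fderiv ℝ f z e * fderiv ℝ v z e := by
  have w1 : ContDiff ℝ ∞ (fun z => fderiv ℝ v z e) :=
    (hv.fderiv_right (m := ∞) le_rfl).clm_apply contDiff_const
  have w2 : ContDiff ℝ ∞ (fun z => fderiv ℝ (fun z => fderiv ℝ v z e) z e) :=
    (w1.fderiv_right (m := ∞) le_rfl).clm_apply contDiff_const
  have c1 : HasCompactSupport (fun z => fderiv ℝ v z e) := hc.fderiv_apply (𝕜 := ℝ) e
  have c2 : HasCompactSupport (fun z => fderiv ℝ (fun z => fderiv ℝ v z e) z e) :=
    c1.fderiv_apply (𝕜 := ℝ) e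
  have s1 : tsupport (fun z => fderiv ℝ v z e) ⊆ O :=
    (tsupport_fderiv_apply_subset ℝ e).trans hs
  have s2 : tsupport (fun z => fderiv ℝ (fun z => fderiv ℝ v z e) z e) ⊆ O :=
    (tsupport_fderiv_apply_subset ℝ e).trans s1
  have hf' : ContinuousOn (fun z => fderiv ℝ f z e) O :=
    (hf.continuousOn_fderiv_of_isOpen hO le_rfl).clm_apply continuousOn_const
  have i1 := (int_mul hO hf' w1.continuous c1 s1).2
  have i2 := (int_mul hO hf.continuousOn w2.continuous c2 s2).2
  have i3 := (int_mul hO hf.continuousOn w1.continuous c1 s1).2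
  refine ⟨i1, i2, ?_⟩
  exact integral_mul_fderiv_eq_neg_fderiv_mul_of_integrable i1 i2 i3
    (fun z hz => (hf.contDiffAt (hO.mem_nhds (s1 hz))).differentiableAt one_ne_zero)
    (fun z _ => w1.differentiable (by simp) z)

theorem ibp {O : Set ℂ} (hO : IsOpen O) {f v : ℂ → ℝ} (hf : ContDiffOn ℝ 1 f O)
    (hv : ContDiff ℝ ∞ v) (hc : HasCompactSupport v) (hs : tsupport v ⊆ O) :
    ∫ z, (px f z * px v z + py f z * py v z) = -∫ z, f z * lap v z := by
  obtain ⟨a1, b1, e1⟩ := ibp1 hO hf hv hc hs 1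
  obtain ⟨a2, b2, e2⟩ := ibp1 hO hf hv hc hs Complex.I
  have h1 : ∫ z, (px f z * px v z + py f z * py v z) =
      (∫ z, fderiv ℝ f z 1 * fderiv ℝ v z 1) +
        ∫ z, fderiv ℝ f z Complex.I * fderiv ℝ v z Complex.I := integral_add a1 a2
  have h2 : ∫ z, f z * lap v z =
      (∫ z, f z * fderiv ℝ (fun z => fderiv ℝ v z 1) z 1) +
        ∫ z, f z * fderiv ℝ (fun z => fderiv ℝ v z Complex.I) z Complex.I := by
    rw [← integral_add b1 b2]
    congr 1
    funext z
    rw [← mul_add]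
    rfl
  rw [h1, h2, e1, e2]
  ring

/-! ### Weak convergence -/

theorem weak {X : Type} [MeasurableSpace X] (m : Measure X) (a : ℕ → X → ℝ) (g : X → ℝ)
    (ha : ∀ k, MemLp (a k) 2 m) (hg : MemLp g 2 m)
    (h : Tendsto (fun k => ∫ x, (a k x) ^ 2 ∂m) atTop (𝓝 0)) :
    Tendsto (fun k => ∫ x, a k x * g x ∂m) atTop (𝓝 0) := by
  have key : ∀ (k : ℕ) (t : ℝ), 0 < t → |∫ x, a k x * g x ∂m| ≤
      (t⁻¹ * ∫ x, (a k x) ^ 2 ∂m) / 2 + (t * ∫ x, (g x) ^ 2 ∂m) / 2 := by
    intro k t ht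
    have i1 := (ha k).integrable_sq
    have i2 := hg.integrable_sq
    have h1 : ‖∫ x, a k x * g x ∂m‖ ≤ ∫ x, ((t⁻¹ * (a k x) ^ 2) / 2 + (t * (g x) ^ 2) / 2) ∂m := by
      apply norm_integral_le_of_norm_le
      · exact ((i1.const_mul _).div_const 2).add ((i2.const_mul _).div_const 2)
      · refine Filter.Eventually.of_forall fun x => ?_
        rw [Real.norm_eq_abs, abs_mul]
        have h2 := sq_nonneg (|a k x| - t * |g x|)
        have h3 : (t⁻¹ * (a k x) ^ 2) / 2 + (t * (g x) ^ 2) / 2 =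
            (|a k x| ^ 2 + t ^ 2 * |g x| ^ 2) / (2 * t) := by
          rw [sq_abs, sq_abs]
          field_simp
        rw [h3, le_div_iff₀ (by positivity)]
        nlinarith
    rw [Real.norm_eq_abs] at h1
    refine h1.trans (le_of_eq ?_)
    rw [integral_add ((i1.const_mul _).div_const 2) ((i2.const_mul _).div_const 2),
      integral_div, integral_div, integral_const_mul, integral_const_mul]
  rw [Metric.tendsto_atTop]
  intro ε hε
  have hC : 0 ≤ ∫ x, (g x) ^ 2 ∂m := integral_nonneg fun x => sq_nonneg _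
  set C := ∫ x, (g x) ^ 2 ∂m with hCdef
  have ht : 0 < ε / (C + 1) := by positivity
  rw [Metric.tendsto_atTop] at h
  obtain ⟨N, hN⟩ := h (ε / (C + 1) * ε) (by positivity)
  refine ⟨N, fun k hk => ?_⟩
  have h1 := hN k hk
  rw [Real.dist_eq, sub_zero] at h1
  have h2 := (le_abs_self _).trans_lt h1
  rw [Real.dist_eq, sub_zero]
  refine (key k _ ht).trans_lt ?_
  have h3 : (ε / (C + 1))⁻¹ * ∫ x, (a k x) ^ 2 ∂m < ε := by
    rw [inv_mul_lt_iff₀ ht]
    exact h2
  have h4 : ε / (C + 1) * C ≤ ε := by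
    rw [div_mul_eq_mul_div, div_le_iff₀ (by positivity)]
    nlinarith
  linarith

/-! ### The measure of a small piece of the surface -/

section

variable {M : Type} [MeasurableSpace M]

/-- the density -/
def dn (ψ : ℂ → ℝ) (z : ℂ) : ℝ≥0 := Real.toNNReal (Real.exp (2 * ψ z))

theorem dn_meas {ψ : ℂ → ℝ} (h : Measurable ψ) : Measurable (dn ψ) :=
  (Real.measurable_exp.comp (h.const_mul 2)).real_toNNReal

theorem dn_coe (ψ : ℂ → ℝ) (z : ℂ) : ((dn ψ z : ℝ≥0) : ℝ) = Real.exp (2 * ψ z) :=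
  Real.coe_toNNReal _ (Real.exp_pos _).le

theorem mpres {μ : Measure M} {B : Set ℂ} (hB : MeasurableSet B) {φ ψ : ℂ → ℝ} {pr p : ℂ → M}
    (hcv : ∀ G : M → ENNReal, Measurable G → ∫⁻ x in pr '' B, G x ∂μ =
        ∫⁻ z in B, G (pr z) * ENNReal.ofReal (Real.exp (2 * φ z)))
    (hp : Measurable p) (hpB : ∀ z ∈ B, p z = pr z) (hψB : ∀ z ∈ B, ψ z = φ z) :
    MeasurePreserving p ((volume.restrict B).withDensity fun z => (dn ψ z : ℝ≥0∞))
      (μ.restrict (pr '' B)) := by
  refine ⟨hp, Measure.ext fun S hS => ?_⟩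
  rw [Measure.map_apply hp hS, withDensity_apply _ (hp hS), ← lintegral_indicator (hp hS),
    ← lintegral_indicator_one hS, hcv _ (measurable_one.indicator hS)]
  apply setLIntegral_congr_fun hB
  intro z hz
  simp only
  rw [← hpB z hz, ← hψB z hz]
  by_cases h : p z ∈ S
  · rw [indicator_of_mem h, indicator_of_mem (show z ∈ p ⁻¹' S from h)]
    simp [dn, ENNReal.ofReal]
  · rw [indicator_of_notMem h, indicator_of_notMem (show z ∉ p ⁻¹' S from h)]
    simp

theorem int_formula {μ : Measure M} {B : Set ℂ} (hB : MeasurableSet B) {φ ψ : ℂ → ℝ}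
    {pr p : ℂ → M} (hψ : Measurable ψ) (hpB : ∀ z ∈ B, p z = pr z) (hψB : ∀ z ∈ B, ψ z = φ z)
    (hmp : MeasurePreserving p ((volume.restrict B).withDensity fun z => (dn ψ z : ℝ≥0∞))
      (μ.restrict (pr '' B))) (h : M → ℝ) (hh : AEStronglyMeasurable h μ) :
    ∫ x in pr '' B, h x ∂μ = ∫ z in B, h (pr z) * Real.exp (2 * φ z) := by
  have h1 : AEStronglyMeasurable h (Measure.map p
      ((volume.restrict B).withDensity fun z => (dn ψ z : ℝ≥0∞))) := by
    rw [hmp.map_eq]; exact hh.restrict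
  rw [← hmp.map_eq, integral_map hmp.measurable.aemeasurable h1,
    integral_withDensity_eq_integral_smul (dn_meas hψ)]
  apply setIntegral_congr_fun hB
  intro z hz
  simp only
  rw [NNReal.smul_def, dn_coe, hψB z hz, hpB z hz, smul_eq_mul, mul_comm]

theorem integrable_formula {μ : Measure M} {B : Set ℂ} (hB : MeasurableSet B) {φ ψ : ℂ → ℝ}
    {pr p : ℂ → M} (hψ : Measurable ψ) (hpB : ∀ z ∈ B, p z = pr z) (hψB : ∀ z ∈ B, ψ z = φ z)
    (hmp : MeasurePreserving p ((volume.restrict B).withDensity fun z => (dn ψ z : ℝ≥0∞))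
      (μ.restrict (pr '' B))) (h : M → ℝ) (hh : Integrable h μ) :
    IntegrableOn (fun z => h (pr z) * Real.exp (2 * φ z)) B := by
  have h1 : Integrable (h ∘ p) ((volume.restrict B).withDensity fun z => (dn ψ z : ℝ≥0∞)) :=
    (hmp.integrable_comp hh.restrict.aestronglyMeasurable).2 hh.restrict
  rw [integrable_withDensity_iff_integrable_smul (dn_meas hψ)] at h1
  refine h1.congr ?_
  filter_upwards [ae_restrict_mem hB] with z hz
  simp only [Function.comp]
  rw [NNReal.smul_def, dn_coe, hψB z hz, hpB z hz, smul_eq_mul, mul_comm]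

theorem memLp_formula {μ : Measure M} {B : Set ℂ} (hB : MeasurableSet B) {φ ψ : ℂ → ℝ}
    {pr p : ℂ → M} (hψ : Measurable ψ) (hpB : ∀ z ∈ B, p z = pr z) (hψB : ∀ z ∈ B, ψ z = φ z)
    (hmp : MeasurePreserving p ((volume.restrict B).withDensity fun z => (dn ψ z : ℝ≥0∞))
      (μ.restrict (pr '' B))) {c : ℝ} (hc : 0 < c) (hcB : ∀ z ∈ B, c ≤ Real.exp (2 * φ z))
    (h : M → ℝ) (hh : MemLp h 2 μ) : MemLp (fun z => h (pr z)) 2 (volume.restrict B) := by
  have h1 : MemLp (h ∘ p) 2 ((volume.restrict B).withDensity fun z => (dn ψ z : ℝ≥0∞)) :=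
    hh.restrict (pr '' B) |>.comp_measurePreserving hmp
  have h2 : volume.restrict B ≤ ENNReal.ofReal c⁻¹ •
      ((volume.restrict B).withDensity fun z => (dn ψ z : ℝ≥0∞)) := by
    rw [Measure.le_iff]
    intro S hS
    rw [Measure.smul_apply, smul_eq_mul, withDensity_apply _ hS,
      ← lintegral_const_mul _ (dn_meas hψ).coe_nnreal_ennreal, ← setLIntegral_one]
    rw [Measure.restrict_restrict hS]
    apply setLIntegral_mono_ae ((dn_meas hψ).coe_nnreal_ennreal.const_mul _).aemeasurable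
    refine Filter.Eventually.of_forall fun z hz => ?_
    have h3 : (1 : ℝ≥0∞) = ENNReal.ofReal 1 := ENNReal.ofReal_one.symm
    have h4 : ((dn ψ z : ℝ≥0) : ℝ≥0∞) = ENNReal.ofReal (Real.exp (2 * ψ z)) := rfl
    rw [h3, h4, ← ENNReal.ofReal_mul (by positivity)]
    apply ENNReal.ofReal_le_ofReal
    rw [hψB z hz.2, inv_mul_eq_div, le_div_iff₀ hc, one_mul]
    exact hcB z hz.2
  have h5 : MemLp (h ∘ p) 2 (volume.restrict B) :=
    h1.of_measure_le_smul ENNReal.ofReal_ne_top h2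
  refine h5.ae_eq ?_
  filter_upwards [ae_restrict_mem hB] with z hz
  simp only [Function.comp, hpB z hz]

end

/-! ### Push forward of test functions -/

section

variable {M P : Type} [MetricSpace M] [CompactSpace M] [MetricSpace P] [CompactSpace P]
  {Ω B : Set ℂ} {φ v : ℂ → ℝ} {pr : ℂ → M} {q : Y → P}

open Classical in
/-- the function on the surface -/
def Gf (B : Set ℂ) (pr : ℂ → M) (v : ℂ → ℝ) (x : M) : ℝ :=
  if h : ∃ y ∈ B, pr y = x then v h.choose else 0

omit [MetricSpace M] [CompactSpace M] in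
theorem Gf_apply (hinj : InjOn pr B) {y : ℂ} (hy : y ∈ B) : Gf B pr v (pr y) = v y := by
  have h : ∃ y' ∈ B, pr y' = pr y := ⟨y, hy, rfl⟩
  rw [Gf, dif_pos h]
  congr 1
  exact hinj h.choose_spec.1 hy h.choose_spec.2

omit [MetricSpace M] [CompactSpace M] in
theorem Gf_zero {x : M} (hx : x ∉ pr '' (tsupport v)) : Gf B pr v x = 0 := by
  by_cases h : ∃ y ∈ B, pr y = x
  · rw [Gf, dif_pos h]
    apply image_eq_zero_of_notMem_tsupport
    intro h2
    exact hx ⟨_, h2, h.choose_spec.2⟩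
  · rw [Gf, dif_neg h]

theorem loc0 (hUT : IsUT Ω φ pr q) (hBΩ : B ⊆ Ω) (hc : HasCompactSupport v)
    (hs : tsupport v ⊆ B) {z : ℂ} (hz : z ∈ Ω) (h : pr z ∉ pr '' (tsupport v)) :
    (fun ζ => Gf B pr v (pr ζ)) =ᶠ[𝓝 z] fun _ => 0 := by
  have hK : IsClosed (pr '' (tsupport v)) :=
    (hc.isCompact.image_of_continuousOn (hUT.contp.mono (hs.trans hBΩ))).isClosed
  have h2 : ∀ᶠ ζ in 𝓝 z, pr ζ ∈ (pr '' (tsupport v))ᶜ :=
    (hUT.contp.continuousAt (hUT.opn.mem_nhds hz)).eventually (hK.isOpen_compl.mem_nhds h)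
  filter_upwards [h2] with ζ hζ
  exact Gf_zero hζ

theorem loc1 (hUT : IsUT Ω φ pr q) (hB : IsOpen B) (hBΩ : B ⊆ Ω) (hinj : InjOn pr B)
    {z : ℂ} (hz : z ∈ Ω) (h : pr z ∈ pr '' B) :
    ∃ γ : ℂ → ℂ, ContDiffAt ℝ ∞ γ z ∧ (fun ζ => Gf B pr v (pr ζ)) =ᶠ[𝓝 z] fun ζ => v (γ ζ) := by
  obtain ⟨y, hy, hyz⟩ := h
  obtain ⟨θ', hg⟩ := hUT.deck z hz y (hBΩ hy) hyz.symm 0
  obtain ⟨r, γ, hr, -, hdiff, hγ, hprop, -⟩ := hg
  simp only at hr hdiff hγ hprop
  have h1 : ContDiffAt ℂ ∞ γ z :=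
    (hdiff.contDiffOn Metric.isOpen_ball).contDiffAt (Metric.ball_mem_nhds z hr)
  refine ⟨γ, h1.restrict_scalars ℝ, ?_⟩
  have h2 : ∀ᶠ ζ in 𝓝 z, γ ζ ∈ B :=
    h1.continuousAt.eventually (by rw [hγ]; exact hB.mem_nhds hy)
  filter_upwards [h2, Metric.ball_mem_nhds z hr] with ζ h3 h4
  rw [← (hprop ζ h4).2.1]
  exact Gf_apply hinj h3

theorem Gf_smooth (hUT : IsUT Ω φ pr q) (hB : IsOpen B) (hBΩ : B ⊆ Ω) (hinj : InjOn pr B)
    (hv : ContDiff ℝ ∞ v) (hc : HasCompactSupport v) (hs : tsupport v ⊆ B) :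
    ContDiffOn ℝ 1 (fun z => Gf B pr v (pr z)) Ω := by
  intro z hz
  apply ContDiffAt.contDiffWithinAt
  by_cases h : pr z ∈ pr '' B
  · obtain ⟨γ, h1, h2⟩ := loc1 (v := v) hUT hB hBΩ hinj hz h
    have h3 : ContDiffAt ℝ 1 (fun ζ => v (γ ζ)) z :=
      (hv.contDiffAt.comp z h1).of_le (by simp)
    exact h3.congr_of_eventuallyEq h2
  · have h1 := loc0 (B := B) hUT hBΩ hc hs hz (fun h' => h (image_mono hs h'))
    exact contDiffAt_const.congr_of_eventuallyEq h1

end

theorem wk : StC1 → StGrad → StCVM → StWk := by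
  intro h1 h2 h3 M P _ _ _ _ _ _ Ω φ pr q D μ hUT hS hC hA lam u hE z0 hz0
  obtain ⟨r0, hr0, hb0, hinj0⟩ := hUT.injp z0 hz0
  have hr : 0 < r0 / 2 := by linarith
  have hcl : Metric.closedBall z0 (r0 / 2) ⊆ Metric.ball z0 r0 :=
    Metric.closedBall_subset_ball (by linarith)
  have hBcl : Metric.ball z0 (r0 / 2) ⊆ Metric.closedBall z0 (r0 / 2) :=
    Metric.ball_subset_closedBall
  refine ⟨r0 / 2, hr, ?_⟩
  generalize hBdef : Metric.ball z0 (r0 / 2) = B at hBcl
  have hBo : IsOpen B := hBdef ▸ Metric.isOpen_ball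
  have hBm : MeasurableSet B := hBo.measurableSet
  have hBΩ : B ⊆ Ω := (hBcl.trans hcl).trans hb0
  have hinj : InjOn pr B := hinj0.mono (hBcl.trans hcl)
  have hφ : ContinuousOn φ Ω := hUT.smooth.continuousOn
  -- bounds of the density
  have hexp : ContinuousOn (fun z => Real.exp (2 * φ z)) (Metric.closedBall z0 (r0 / 2)) :=
    Real.continuous_exp.comp_continuousOn
      (continuousOn_const.mul (hφ.mono (hcl.trans hb0)))
  obtain ⟨x1, hx1, hmin⟩ := (isCompact_closedBall z0 (r0 / 2)).exists_isMinOn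
    ⟨z0, Metric.mem_closedBall_self hr.le⟩ hexp
  have hc : 0 < Real.exp (2 * φ x1) := Real.exp_pos _
  have hcB : ∀ z ∈ B, Real.exp (2 * φ x1) ≤ Real.exp (2 * φ z) := fun z hz => hmin (hBcl hz)
  generalize Real.exp (2 * φ x1) = c at hc hcB
  -- measurable representatives
  classical
  have hp : Measurable (B.piecewise pr (fun _ => pr z0)) :=
    ContinuousOn.measurable_piecewise (hUT.contp.mono hBΩ) continuousOn_const hBm
  have hψ : Measurable (B.piecewise φ (fun _ => 0)) :=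
    ContinuousOn.measurable_piecewise (hφ.mono hBΩ) continuousOn_const hBm
  have hpB : ∀ z ∈ B, B.piecewise pr (fun _ => pr z0) z = pr z := fun z hz =>
    piecewise_eq_of_mem _ _ _ hz
  have hψB : ∀ z ∈ B, B.piecewise φ (fun _ => 0) z = φ z := fun z hz =>
    piecewise_eq_of_mem _ _ _ hz
  obtain ⟨cv, hfin, -, -⟩ := h3 M P Ω φ pr q μ hUT hA
  obtain ⟨hmeas, hlin, -⟩ := cv B hBm hBΩ hinj
  have hmp := mpres hBm hlin hp hpB hψB
  have IF := int_formula hBm hψ hpB hψB hmp
  have INT := integrable_formula hBm hψ hpB hψB hmp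
  have MLF := memLp_formula hBm hψ hpB hψB hmp hc hcB
  have hU := MLF u hE.mem
  refine ⟨hBΩ, hinj, hU, ?_⟩
  intro v hv
  rw [hBdef] at hv
  obtain ⟨hv1, hv2, hv3⟩ := hv
  have hG1 : D.C1 (Gf B pr v) := (h1 M P Ω φ pr q D μ hUT hS hC (Gf B pr v)).2
    (Gf_smooth hUT hBo hBΩ hinj hv1 hv2 hv3)
  obtain ⟨F, hF1, hF2, -, hF3⟩ := hE.ex
  have hlim := hF3 (Gf B pr v) hG1
  have hGr := (Pool.Agent.Y708.QE.gradient M μ D hS).1
  -- the Laplacian of the test function
  have w1 : ∀ e : ℂ, ContDiff ℝ ∞ (fun z => fderiv ℝ v z e) := fun e =>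
    (hv1.fderiv_right (m := ∞) le_rfl).clm_apply contDiff_const
  have w2 : ∀ e : ℂ, ContDiff ℝ ∞ (fun z => fderiv ℝ (fun z => fderiv ℝ v z e) z e) := fun e =>
    ((w1 e).fderiv_right (m := ∞) le_rfl).clm_apply contDiff_const
  have c1 : ∀ e : ℂ, HasCompactSupport (fun z => fderiv ℝ v z e) := fun e =>
    hv2.fderiv_apply (𝕜 := ℝ) e
  have c2 : ∀ e : ℂ, HasCompactSupport (fun z => fderiv ℝ (fun z => fderiv ℝ v z e) z e) :=
    fun e => (c1 e).fderiv_apply (𝕜 := ℝ) e
  have s1 : ∀ e : ℂ, tsupport (fun z => fderiv ℝ v z e) ⊆ B := fun e =>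
    (tsupport_fderiv_apply_subset ℝ e).trans hv3
  have s2 : ∀ e : ℂ, tsupport (fun z => fderiv ℝ (fun z => fderiv ℝ v z e) z e) ⊆ B := fun e =>
    (tsupport_fderiv_apply_subset ℝ e).trans (s1 e)
  have hlap : lap v = (fun z => fderiv ℝ (fun z => fderiv ℝ v z 1) z 1) +
      (fun z => fderiv ℝ (fun z => fderiv ℝ v z Complex.I) z Complex.I) := rfl
  have hlc : Continuous (lap v) := by
    rw [hlap]; exact (w2 1).continuous.add (w2 Complex.I).continuous
  have hls : HasCompactSupport (lap v) := by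
    rw [hlap]; exact (c2 1).add (c2 Complex.I)
  have z0v : ∀ z, z ∉ B → v z = 0 := fun z hz =>
    image_eq_zero_of_notMem_tsupport fun h => hz (hv3 h)
  have z1v : ∀ e z, z ∉ B → fderiv ℝ v z e = 0 := fun e z hz =>
    image_eq_zero_of_notMem_tsupport (f := fun z => fderiv ℝ v z e) fun h => hz (s1 e h)
  have z2v : ∀ z, z ∉ B → lap v z = 0 := by
    intro z hz
    have a1 := image_eq_zero_of_notMem_tsupport
      (f := fun z => fderiv ℝ (fun z => fderiv ℝ v z 1) z 1) fun h => hz (s2 1 h)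
    have a2 := image_eq_zero_of_notMem_tsupport
      (f := fun z => fderiv ℝ (fun z => fderiv ℝ v z Complex.I) z Complex.I)
      fun h => hz (s2 Complex.I h)
    show fderiv ℝ (fun z => fderiv ℝ v z 1) z 1 +
      fderiv ℝ (fun z => fderiv ℝ v z Complex.I) z Complex.I = 0
    rw [a1, a2, add_zero]
  have hLlap : MemLp (lap v) 2 (volume.restrict B) :=
    (hlc.memLp_of_hasCompactSupport hls).restrict B
  have hgB : ∀ z ∈ B, (fun ζ => Gf B pr v (pr ζ)) =ᶠ[𝓝 z] v := by
    intro z hz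
    filter_upwards [hBo.mem_nhds hz] with ζ hζ
    exact Gf_apply hinj hζ
  -- the first identity
  have key1 : ∀ k, ∫ x, inner ℝ (D.gr (F k) x) (D.gr (Gf B pr v) x) ∂μ =
      -∫ z in B, F k (pr z) * lap v z := by
    intro k
    have hfk : ContDiffOn ℝ 1 (fun z => F k (pr z)) Ω :=
      (h1 M P Ω φ pr q D μ hUT hS hC (F k)).1 (hF1 k)
    have hgrad := h2 M P Ω φ pr q D μ hUT hS hC (F k) (Gf B pr v) (hF1 k) hG1
    have hmeasg : AEStronglyMeasurable
        (fun x => inner ℝ (D.gr (F k) x) (D.gr (Gf B pr v) x)) μ :=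
      ((hGr (F k) (hF1 k)).2.1.inner (hGr _ hG1).2.1).aestronglyMeasurable
    have e0 : ∀ x, x ∉ pr '' B → inner ℝ (D.gr (F k) x) (D.gr (Gf B pr v) x) = 0 := by
      intro x hx
      obtain ⟨z, hz, rfl⟩ : x ∈ pr '' Ω := by rw [hUT.surjp]; trivial
      rw [hgrad z hz]
      have h5 := loc0 (B := B) hUT hBΩ hv2 hv3 hz (fun h' => hx (image_mono hv3 h'))
      have h6 : fderiv ℝ (fun ζ => Gf B pr v (pr ζ)) z = 0 := by
        rw [h5.fderiv_eq]; simp
      simp [px, py, h6]
    rw [← setIntegral_eq_integral_of_forall_compl_eq_zero e0, IF _ hmeasg]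
    have e1 : ∫ z in B, inner ℝ (D.gr (F k) (pr z)) (D.gr (Gf B pr v) (pr z)) *
        Real.exp (2 * φ z) = ∫ z in B, (px (fun z => F k (pr z)) z * px v z +
          py (fun z => F k (pr z)) z * py v z) := by
      apply setIntegral_congr_fun hBm
      intro z hz
      simp only
      rw [hgrad z (hBΩ hz)]
      have h6 : fderiv ℝ (fun ζ => Gf B pr v (pr ζ)) z = fderiv ℝ v z := (hgB z hz).fderiv_eq
      have h7 : Real.exp (-2 * φ z) * Real.exp (2 * φ z) = 1 := by
        rw [← Real.exp_add]; simp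
      have h8 : px (fun ζ => Gf B pr v (pr ζ)) z = px v z := by simp only [px, h6]
      have h9 : py (fun ζ => Gf B pr v (pr ζ)) z = py v z := by simp only [py, h6]
      rw [h8, h9, mul_right_comm, h7, one_mul]
    rw [e1, setIntegral_eq_integral_of_forall_compl_eq_zero, ibp hUT.opn hfk hv1 hv2
      (hv3.trans hBΩ), setIntegral_eq_integral_of_forall_compl_eq_zero]
    · intro z hz
      rw [z2v z hz, mul_zero]
    · intro z hz
      simp only [px, py]
      rw [z1v 1 z hz, z1v Complex.I z hz, mul_zero, mul_zero, add_zero]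
  -- the second
  have hFL : ∀ k, MemLp (F k) 2 μ := fun k =>
    (hGr (F k) (hF1 k)).1.memLp_of_hasCompactSupport (HasCompactSupport.of_compactSpace _)
  have hdL : ∀ k, MemLp (fun x => F k x - u x) 2 μ := fun k => (hFL k).sub hE.mem
  have hdB : ∀ k, MemLp (fun z => F k (pr z) - u (pr z)) 2 (volume.restrict B) := fun k =>
    MLF (fun x => F k x - u x) (hdL k)
  have hsq : ∀ k, ∫ z in B, (F k (pr z) - u (pr z)) ^ 2 ≤
      c⁻¹ * ∫ x, (F k x - u x) ^ 2 ∂μ := by
    intro k
    have i1 : Integrable (fun x => (F k x - u x) ^ 2) μ := (hdL k).integrable_sq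
    have i2 := INT _ i1
    have i3 := IF _ i1.aestronglyMeasurable
    have i4 : ∫ z in B, (F k (pr z) - u (pr z)) ^ 2 ≤
        ∫ z in B, c⁻¹ * ((F k (pr z) - u (pr z)) ^ 2 * Real.exp (2 * φ z)) := by
      apply integral_mono_of_nonneg (Filter.Eventually.of_forall fun z => sq_nonneg _)
        (i2.const_mul _)
      filter_upwards [ae_restrict_mem hBm] with z hz
      have h5 : 1 ≤ c⁻¹ * Real.exp (2 * φ z) := by
        rw [inv_mul_eq_div, le_div_iff₀ hc, one_mul]
        exact hcB z hz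
      have h6 := sq_nonneg (F k (pr z) - u (pr z))
      calc (F k (pr z) - u (pr z)) ^ 2 = (F k (pr z) - u (pr z)) ^ 2 * 1 := by ring
        _ ≤ (F k (pr z) - u (pr z)) ^ 2 * (c⁻¹ * Real.exp (2 * φ z)) :=
            mul_le_mul_of_nonneg_left h5 h6
        _ = _ := by ring
    rw [integral_const_mul, ← i3] at i4
    refine i4.trans (mul_le_mul_of_nonneg_left ?_ (inv_nonneg.2 hc.le))
    exact setIntegral_le_integral i1 (Filter.Eventually.of_forall fun x => sq_nonneg _)
  have hsq0 : Tendsto (fun k => ∫ z in B, (F k (pr z) - u (pr z)) ^ 2) atTop (𝓝 0) := by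
    have h5 : Tendsto (fun k => c⁻¹ * ∫ x, (F k x - u x) ^ 2 ∂μ) atTop (𝓝 (c⁻¹ * 0)) :=
      hF2.const_mul _
    rw [mul_zero] at h5
    exact squeeze_zero (fun k => integral_nonneg fun z => sq_nonneg _) hsq h5
  have hw := weak (volume.restrict B) (fun k z => F k (pr z) - u (pr z)) (lap v) hdB hLlap hsq0
  have iU : Integrable (fun z => u (pr z) * lap v z) (volume.restrict B) := hU.integrable_mul hLlap
  have iF : ∀ k, Integrable (fun z => (F k (pr z) - u (pr z)) * lap v z) (volume.restrict B) :=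
    fun k => (hdB k).integrable_mul hLlap
  have key2 : Tendsto (fun k => ∫ z in B, F k (pr z) * lap v z) atTop
      (𝓝 (∫ z in B, u (pr z) * lap v z)) := by
    have h5 : ∀ k, ∫ z in B, F k (pr z) * lap v z =
        (∫ z in B, (F k (pr z) - u (pr z)) * lap v z) + ∫ z in B, u (pr z) * lap v z := by
      intro k
      rw [← integral_add (iF k) iU]
      congr 1
      funext z
      ring
    simp only [h5]
    have h6 := hw.add_const (∫ z in B, u (pr z) * lap v z)
    rw [zero_add] at h6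
    exact h6
  -- the third
  have hGL : MemLp (Gf B pr v) 2 μ := (hGr _ hG1).1.memLp_of_hasCompactSupport
    (HasCompactSupport.of_compactSpace _)
  have iuG : Integrable (fun x => u x * Gf B pr v x) μ := hE.mem.integrable_mul hGL
  have key3 : ∫ x, u x * Gf B pr v x ∂μ = ∫ z in B, u (pr z) * v z * Real.exp (2 * φ z) := by
    have e0 : ∀ x, x ∉ pr '' B → u x * Gf B pr v x = 0 := by
      intro x hx
      rw [Gf_zero (fun h => hx (image_mono hv3 h)), mul_zero]
    rw [← setIntegral_eq_integral_of_forall_compl_eq_zero e0, IF _ iuG.aestronglyMeasurable]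
    apply setIntegral_congr_fun hBm
    intro z hz
    simp only
    rw [Gf_apply hinj hz]
  have iUv : Integrable (fun z => u (pr z) * v z * Real.exp (2 * φ z)) (volume.restrict B) := by
    refine (INT _ iuG).congr ?_
    filter_upwards [ae_restrict_mem hBm] with z hz
    rw [Gf_apply hinj hz]
  -- conclusion
  have hfinal : -∫ z in B, u (pr z) * lap v z =
      lam * ∫ z in B, u (pr z) * v z * Real.exp (2 * φ z) := by
    rw [← key3]
    refine tendsto_nhds_unique ?_ hlim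
    simp only [key1]
    exact key2.neg
  have e2 : ∀ z, z ∉ B → u (pr z) * (lap v z + lam * Real.exp (2 * φ z) * v z) = 0 := by
    intro z hz
    rw [z2v z hz, z0v z hz, mul_zero, add_zero, mul_zero]
  rw [← setIntegral_eq_integral_of_forall_compl_eq_zero e2]
  have e3 : ∫ z in B, u (pr z) * (lap v z + lam * Real.exp (2 * φ z) * v z) =
      (∫ z in B, u (pr z) * lap v z) +
        ∫ z in B, lam * (u (pr z) * v z * Real.exp (2 * φ z)) := by
    rw [← integral_add iU (iUv.const_mul _)]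
    congr 1
    funext z
    ring
  rw [e3, integral_const_mul, ← hfinal]
  ring

end Pool.Agent.Y361.EL.Wk
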